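import Mathlib

set_option autoImplicit false

open Finset Filter Topology

namespace Pool.Agent.Results.MP_8b2777_lc.Composite

/-- The sequence is eventually periodic. -/
def EvPer {N : ℕ} (a : ℕ → Fin N) : Prop := ∃ m p : ℕ, 0 < p ∧ ∀ i, m ≤ i → a (i + p) = a i

/-- The N-adic integer with digits b equals u / g, in lowest terms, with g prime to N. -/
def Rep {N : ℕ} (b : ℕ → Fin N) (u g : ℤ) : Prop :=
  IsCoprime g (N : ℤ) ∧ IsCoprime u g ∧
    ∀ n : ℕ, g * ∑ i ∈ range n, ((b i : ℕ) : ℤ) * (N : ℤ) ^ i ≡ u [ZMOD (N : ℤ) ^ n]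

/-- The N-adic complexities of the eventually periodic sequences with the same first n terms. -/
def Cx {N : ℕ} (a : ℕ → Fin N) (n : ℕ) : Set ℝ :=
  {x | ∃ (b : ℕ → Fin N) (u g : ℤ), EvPer b ∧ (∀ i < n, b i = a i) ∧ Rep b u g ∧
    x = Real.logb N ((max |u| |g| : ℤ) : ℝ)}

theorem least {N : ℕ} (hN : 1 < N) (a : ℕ → Fin N) (n : ℕ) :
    ∃ x, IsLeast (Cx a n) x ∧ 0 ≤ x ∧ x ≤ n := by
  classical
  have hN' : (1 : ℝ) < N := by exact_mod_cast hN
  let S : ℕ → Prop := fun k => ∃ (b : ℕ → Fin N) (u g : ℤ), EvPer b ∧ (∀ i < n, b i = a i) ∧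
    Rep b u g ∧ (k : ℤ) = max |u| |g|
  have hpos : ∀ k, S k → 1 ≤ k := by
    rintro k ⟨b, u, g, -, -, hr, e⟩
    have : g ≠ 0 := by
      rintro rfl
      have := Int.isUnit_iff.1 (isCoprime_zero_left.1 hr.1)
      omega
    have := abs_pos.2 this
    have := le_max_right |u| |g|
    omega
  have hlt : ∀ m, ∑ i ∈ range m, (a i : ℕ) * N ^ i < N ^ m := by
    intro m
    induction m with
    | zero => simp
    | succ m ih =>
      rw [sum_range_succ, pow_succ]
      have := Nat.mul_le_mul_right (N ^ m) (Nat.succ_le_of_lt (a m).2)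
      nlinarith
  have h0 : S (max (∑ i ∈ range n, (a i : ℕ) * N ^ i) 1) := by
    refine ⟨fun i => if i < n then a i else ⟨0, by omega⟩, ∑ i ∈ range n, ((a i : ℕ) : ℤ) * N ^ i, 1,
      ⟨n, 1, one_pos, fun i hi => by beta_reduce; rw [if_neg (by omega), if_neg (by omega)]⟩,
      fun i hi => if_pos hi, ⟨isCoprime_one_left, isCoprime_one_right, fun m => ?_⟩, ?_⟩
    · rw [one_mul]
      rcases le_total m n with h | h
      · rw [← sum_range_add_sum_Ico _ h, sum_congr rfl (g := fun i => ((a i : ℕ) : ℤ) * N ^ i)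
          (fun i hi => by beta_reduce; rw [if_pos (lt_of_lt_of_le (mem_range.1 hi) h)])]
        refine (Int.modEq_iff_dvd.2 ?_)
        rw [add_sub_cancel_left]
        exact dvd_sum (fun i hi => (pow_dvd_pow _ (mem_Ico.1 hi).1).mul_left _)
      · rw [← sum_range_add_sum_Ico _ h, sum_eq_zero (s := Ico n m)
          (fun i hi => by beta_reduce; rw [if_neg (by have := (mem_Ico.1 hi).1; omega)]; simp), add_zero,
          sum_congr rfl (g := fun i => ((a i : ℕ) : ℤ) * N ^ i)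
          (fun i hi => by beta_reduce; rw [if_pos (mem_range.1 hi)])]
    · rw [abs_of_nonneg (by positivity)]; push_cast; simp
  have hex : ∃ k, S k := ⟨_, h0⟩
  have h1 : (1 : ℝ) ≤ Nat.find hex := by exact_mod_cast hpos _ (Nat.find_spec hex)
  refine ⟨Real.logb N (Nat.find hex), ⟨?_, ?_⟩, Real.logb_nonneg hN' h1, ?_⟩
  · obtain ⟨b, u, g, h2, h3, h4, h5⟩ := Nat.find_spec hex
    exact ⟨b, u, g, h2, h3, h4, by rw [← h5]; simp⟩
  · rintro x ⟨b, u, g, h2, h3, h4, rfl⟩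
    have h5 : ((max |u| |g|).toNat : ℤ) = max |u| |g| :=
      Int.toNat_of_nonneg (le_max_of_le_left (abs_nonneg u))
    refine Real.logb_le_logb_of_le hN' (by linarith) ?_
    rw [← h5]
    exact_mod_cast Nat.find_min' hex ⟨b, u, g, h2, h3, h4, h5⟩
  · rw [Real.logb_le_iff_le_rpow hN' (by linarith), Real.rpow_natCast]
    have := (Nat.find_min' hex h0).trans (max_le (hlt n).le (Nat.one_le_pow _ _ (by omega)))
    exact_mod_cast this

theorem digits (P Q : ℕ) (hQ : 1 < Q) (hP : Q < P) (h : Nat.Coprime P Q) :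
    ∃ a : ℕ → Fin (P * Q), ∀ n : ℕ,
      (P : ℤ) ^ n ∣ ∑ i ∈ range n, ((a i : ℕ) : ℤ) * ((P * Q : ℕ) : ℤ) ^ i ∧
      (Q : ℤ) ^ n ∣ ∑ i ∈ range n, ((a i : ℕ) : ℤ) * ((P * Q : ℕ) : ℤ) ^ i - 1 := by
  have hN : 0 < P * Q := Nat.mul_pos (by omega) (by omega)
  let e : ℕ → ℕ := fun n => Nat.chineseRemainder (Nat.Coprime.pow n n h) 0 1
  have e1 : ∀ n, e n ≡ 0 [MOD P ^ n] := fun n => (Nat.chineseRemainder _ 0 1).2.1
  have e2 : ∀ n, e n ≡ 1 [MOD Q ^ n] := fun n => (Nat.chineseRemainder _ 0 1).2.2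
  have e3 : ∀ n, e n < (P * Q) ^ n := fun n => by
    rw [mul_pow]
    exact Nat.chineseRemainder_lt_mul _ _ _ (pow_ne_zero _ (by omega)) (pow_ne_zero _ (by omega))
  have e4 : ∀ n, e (n + 1) % (P * Q) ^ n = e n := fun n => by
    rw [← Nat.mod_eq_of_lt (e3 n), mul_pow]
    exact (Nat.modEq_and_modEq_iff_modEq_mul (Nat.Coprime.pow n n h)).1
      ⟨((e1 (n + 1)).of_dvd (pow_dvd_pow _ n.le_succ)).trans (e1 n).symm,
        ((e2 (n + 1)).of_dvd (pow_dvd_pow _ n.le_succ)).trans (e2 n).symm⟩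
  have e5 : ∀ n, ∑ i ∈ range n, e (i + 1) / (P * Q) ^ i * (P * Q) ^ i = e n := by
    intro n
    induction n with
    | zero => have := e3 0; simp at this; simp [this]
    | succ n ih => rw [sum_range_succ, ih, ← e4 n, Nat.mod_add_div']
  refine ⟨fun n => ⟨e (n + 1) / (P * Q) ^ n, Nat.div_lt_of_lt_mul (by rw [← pow_succ]; exact e3 _)⟩,
    fun n => ?_⟩
  have e6 : ∑ i ∈ range n, ((e (i + 1) / (P * Q) ^ i : ℕ) : ℤ) * ((P * Q : ℕ) : ℤ) ^ i = e n := by
    exact_mod_cast e5 n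
  rw [e6]
  exact ⟨by exact_mod_cast (Nat.modEq_zero_iff_dvd.1 (e1 n)), by exact_mod_cast (e2 n).symm.dvd⟩

theorem main (P Q : ℕ) (hQ : 1 < Q) (hP : Q < P) (h : Nat.Coprime P Q) :
    ∃ (a : ℕ → Fin (P * Q)) (lam : ℕ → ℝ), ¬ EvPer a ∧ (∀ n, IsLeast (Cx a n) (lam n)) ∧
      ¬ ∃ B : ℝ, {x | MapClusterPt x atTop (fun n : ℕ => lam n / n)} = Set.Icc B (1 - B) := by
  have hN : 1 < P * Q := by nlinarith
  have hN' : (1 : ℝ) < (P * Q : ℕ) := by exact_mod_cast hN
  obtain ⟨a, ha⟩ := digits P Q hQ hP h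
  choose lam hl hl0 hl1 using least hN a
  have zero : ∀ (R : ℕ) (m : ℕ) (u : ℤ), 1 < R → (∀ n, m ≤ n → (R : ℤ) ^ n ∣ u) → u = 0 := by
    intro R m u hR hu
    refine Int.eq_zero_of_abs_lt_dvd (hu (m + u.natAbs) (by omega)) ?_
    have := Nat.lt_pow_self (n := m + u.natAbs) hR
    rw [Int.abs_eq_natAbs]
    exact_mod_cast lt_of_le_of_lt (Nat.le_add_left _ _) this
  refine ⟨a, lam, ?_, hl, ?_⟩
  · rintro ⟨m, p, hp, hper⟩
    generalize hA : (fun n => ∑ i ∈ range n, ((a i : ℕ) : ℤ) * ((P * Q : ℕ) : ℤ) ^ i) = A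
    have hA' : ∀ n, A n = ∑ i ∈ range n, ((a i : ℕ) : ℤ) * ((P * Q : ℕ) : ℤ) ^ i :=
      fun n => (congrFun hA n).symm
    simp only [← hA'] at ha
    have h1 : ∀ n, m ≤ n → A (n + p) - ((P * Q : ℕ) : ℤ) ^ p * A n =
        A (m + p) - ((P * Q : ℕ) : ℤ) ^ p * A m := by
      intro n hn
      induction n, hn using Nat.le_induction with
      | base => rfl
      | succ n hn ih =>
        rw [← ih, show n + 1 + p = n + p + 1 by ring, hA' (n + p + 1), hA' (n + 1), sum_range_succ,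
          sum_range_succ, ← hA', ← hA', hper n hn]
        ring
    have h2 := zero P m (A (m + p) - ((P * Q : ℕ) : ℤ) ^ p * A m) (by omega) (fun n hn => by
      rw [← h1 n hn]
      exact dvd_sub ((pow_dvd_pow _ (by omega)).trans (ha _).1) ((ha n).1.mul_left _))
    have h3 := zero Q m (1 - ((P * Q : ℕ) : ℤ) ^ p) hQ (fun n hn => by
      have := dvd_sub ((pow_dvd_pow _ (Nat.le_add_right n p)).trans (ha _).2)
        ((ha n).2.mul_left (((P * Q : ℕ) : ℤ) ^ p))
      have e := h1 n hn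
      rw [h2] at e
      rw [← dvd_neg]
      convert this using 1
      linear_combination -e)
    have : (1 : ℤ) < ((P * Q : ℕ) : ℤ) ^ p := one_lt_pow₀ (by exact_mod_cast hN) hp.ne'
    omega
  · rintro ⟨B, hB⟩
    have hc : 1 / 2 < Real.logb (P * Q : ℕ) P := by
      rw [Real.lt_logb_iff_rpow_lt hN' (by exact_mod_cast (by omega : 0 < P)), ← Real.sqrt_eq_rpow,
        Real.sqrt_lt' (by exact_mod_cast (by omega : 0 < P))]
      exact_mod_cast (by nlinarith : P * Q < P ^ 2)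
    have low : ∀ n : ℕ, 1 ≤ n → Real.logb (P * Q : ℕ) P ≤ lam n / n := by
      intro n hn
      obtain ⟨b, u, g, -, h2, ⟨h3, -, h4⟩, h5⟩ := (hl n).1
      have h6 := (h4 n).dvd
      rw [sum_congr rfl (g := fun i => ((a i : ℕ) : ℤ) * ((P * Q : ℕ) : ℤ) ^ i)
        (fun i hi => by rw [h2 i (mem_range.1 hi)])] at h6
      have h7 := ha n
      generalize ∑ i ∈ range n, ((a i : ℕ) : ℤ) * ((P * Q : ℕ) : ℤ) ^ i = A at h6 h7
      push_cast at h6 h3
      rw [mul_pow] at h6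
      have h8 : (P : ℤ) ^ n ∣ u := by
        simpa using dvd_add ((dvd_mul_right _ _).trans h6) (h7.1.mul_left g)
      have h9 : u ≠ 0 := by
        rintro rfl
        have : (Q : ℤ) ∣ g := by
          have := dvd_add ((dvd_mul_left _ _).trans h6) (h7.2.mul_left g)
          rw [show 0 - g * A + g * (A - 1) = -g by ring, dvd_neg] at this
          exact (dvd_pow_self _ (by omega)).trans this
        have := Int.isUnit_iff.1 (h3.isUnit_of_dvd' this (dvd_mul_left _ _))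
        omega
      have h10 : (P : ℤ) ^ n ≤ max |u| |g| :=
        le_max_of_le_left (Int.le_of_dvd (abs_pos.2 h9) ((dvd_abs _ _).2 h8))
      rw [le_div_iff₀ (by exact_mod_cast hn), h5, mul_comm, ← Real.logb_pow]
      refine Real.logb_le_logb_of_le hN' (pow_pos (by exact_mod_cast (by omega : 0 < P)) _) ?_
      exact_mod_cast h10
    have big : ∀ x ∈ Set.Icc B (1 - B), 1 / 2 < x := by
      intro x hx
      rw [← hB] at hx
      exact hc.trans_le (isClosed_Ici.mem_of_mapClusterPt hx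
        (eventually_atTop.2 ⟨1, low⟩))
    obtain ⟨x, -, hx⟩ := (isCompact_Icc (a := (0 : ℝ)) (b := 1)).exists_mapClusterPt
      (f := atTop) (u := fun n : ℕ => lam n / n) (tendsto_principal.2 (Eventually.of_forall
        (fun n => ⟨div_nonneg (hl0 n) n.cast_nonneg, div_le_one_of_le₀ (hl1 n) n.cast_nonneg⟩)))
    have hx' : x ∈ Set.Icc B (1 - B) := hB ▸ hx
    have h1 := big B ⟨le_rfl, hx'.1.trans hx'.2⟩
    have h2 := big (1 - B) ⟨hx'.1.trans hx'.2, le_rfl⟩
    linarith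

theorem result (N : ℕ) (hN : 2 ≤ N) (h : ¬ IsPrimePow N) :
    ∃ (a : ℕ → Fin N) (lam : ℕ → ℝ), ¬ EvPer a ∧ (∀ n, IsLeast (Cx a n) (lam n)) ∧
      ¬ ∃ B : ℝ, {x | MapClusterPt x atTop (fun n : ℕ => lam n / n)} = Set.Icc B (1 - B) := by
  have hp := Nat.minFac_prime (show N ≠ 1 by omega)
  obtain ⟨k, Q, hQ, e⟩ := Nat.exists_eq_pow_mul_and_not_dvd (show N ≠ 0 by omega) _ hp.ne_one
  have hk : k ≠ 0 := by
    rintro rfl
    apply hQ
    rw [pow_zero, one_mul] at e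
    exact e ▸ Nat.minFac_dvd N
  have h1 : 1 < N.minFac ^ k := one_lt_pow₀ hp.one_lt hk
  have h2 : 1 < Q := by
    rcases Nat.lt_trichotomy Q 1 with h2 | rfl | h2
    · obtain rfl : Q = 0 := by omega
      simp at hQ
    · exact absurd ⟨N.minFac, k, hp.prime, Nat.pos_of_ne_zero hk, by rw [← mul_one (_ ^ k), ← e]⟩ h
    · exact h2
  have h3 : Nat.Coprime (N.minFac ^ k) Q := ((Nat.Prime.coprime_iff_not_dvd hp).2 hQ).pow_left _
  generalize N.minFac ^ k = P at e h1 h3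
  rcases Nat.lt_trichotomy P Q with h4 | rfl | h4
  · rw [e, mul_comm]; exact main Q P h1 h4 h3.symm
  · simp at h3; omega
  · rw [e]; exact main P Q h2 h4 h3

end Pool.Agent.Results.MP_8b2777_lc.Composite
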